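import Pool.Agent.H181.HP.Stmts

open MeasureTheory Filter
open scoped ENNReal Topology

namespace Pool.Agent.H181.HP

theorem hm_pos {M : ℕ} (hM : 1 ≤ M) : 0 < hm M := by
  unfold hm
  apply Finset.sum_pos
  · intro i _; positivity
  · exact ⟨0, Finset.mem_range.2 hM⟩

theorem eM_le (hPh : TaskPh) {M : ℕ} (hM : 1 ≤ M) :
    eM M ≤ (∑' m : ℕ, ENNReal.ofReal (((m : ℝ) + 1) ^ 3 * (1 / 2) ^ (m + 1))) *
      ENNReal.ofReal (1 / hm M) := by
  have hp := hm_pos hM
  unfold eM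
  rw [← ENNReal.tsum_mul_right]
  apply ENNReal.tsum_le_tsum
  intro m
  rw [tsum_eq_sum (s := Finset.range M)]
  · calc ∑ j ∈ Finset.range M, ENNReal.ofReal (((j : ℝ) + m + 1) * (1 / 2) ^ (m + 1) *
          (ph M j - ph M (j + m + 1)) ^ 2)
        ≤ ∑ j ∈ Finset.range M, ENNReal.ofReal
          ((((m : ℝ) + 1) ^ 3 * (1 / 2) ^ (m + 1) / hm M ^ 2) * (1 / ((j : ℝ) + 1))) := by
          apply Finset.sum_le_sum
          intro j _
          apply ENNReal.ofReal_le_ofReal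
          obtain ⟨h1, h2, _⟩ := hPh M j m hM
          have h3 : (ph M j - ph M (j + m + 1)) ^ 2 ≤ (((m : ℝ) + 1) / (((j : ℝ) + 1) * hm M)) ^ 2 :=
            pow_le_pow_left₀ h1 h2 2
          have h4 : (j : ℝ) + m + 1 ≤ ((j : ℝ) + 1) * ((m : ℝ) + 1) := by
            have : 0 ≤ (j : ℝ) * m := by positivity
            nlinarith
          calc ((j : ℝ) + m + 1) * (1 / 2) ^ (m + 1) * (ph M j - ph M (j + m + 1)) ^ 2
              ≤ (((j : ℝ) + 1) * ((m : ℝ) + 1)) * (1 / 2) ^ (m + 1) *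
                (((m : ℝ) + 1) / (((j : ℝ) + 1) * hm M)) ^ 2 := by
                apply mul_le_mul _ h3 (sq_nonneg _) (by positivity)
                exact mul_le_mul_of_nonneg_right h4 (by positivity)
            _ = (((m : ℝ) + 1) ^ 3 * (1 / 2) ^ (m + 1) / hm M ^ 2) * (1 / ((j : ℝ) + 1)) := by
                field_simp
      _ = ENNReal.ofReal (∑ j ∈ Finset.range M,
          (((m : ℝ) + 1) ^ 3 * (1 / 2) ^ (m + 1) / hm M ^ 2) * (1 / ((j : ℝ) + 1))) := by
          rw [ENNReal.ofReal_sum_of_nonneg]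
          intro j _
          positivity
      _ = ENNReal.ofReal ((((m : ℝ) + 1) ^ 3 * (1 / 2) ^ (m + 1)) * (1 / hm M)) := by
          rw [← Finset.mul_sum]
          congr 1
          have : ∑ i ∈ Finset.range M, 1 / ((i : ℝ) + 1) = hm M := rfl
          rw [this]
          field_simp
      _ = _ := by rw [ENNReal.ofReal_mul (by positivity)]
      _ ≤ _ := le_rfl
  · intro j hj
    rw [Finset.mem_range, not_lt] at hj
    obtain ⟨_, _, h3⟩ := hPh M j m hM
    rw [h3 hj]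
    simp

theorem taskEM : TaskEM := by
  intro hPh hHm
  have hs : Summable (fun m : ℕ => ((m : ℝ) + 1) ^ 3 * (1 / 2) ^ (m + 1)) := by
    have h1 := summable_pow_mul_geometric_of_norm_lt_one (R := ℝ) 3 (r := 1 / 2) (by norm_num)
    have h2 := (summable_nat_add_iff 1).2 h1
    refine h2.congr ?_
    intro m
    push_cast
    ring
  have hW : (∑' m : ℕ, ENNReal.ofReal (((m : ℝ) + 1) ^ 3 * (1 / 2) ^ (m + 1))) ≠ ⊤ :=
    hs.tsum_ofReal_ne_top
  have h1 : Tendsto (fun M => ENNReal.ofReal (1 / hm M)) atTop (𝓝 0) := by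
    rw [← ENNReal.ofReal_zero]
    apply ENNReal.tendsto_ofReal
    simp only [one_div]
    exact tendsto_inv_atTop_zero.comp hHm
  have h2 : Tendsto (fun M => (∑' m : ℕ, ENNReal.ofReal (((m : ℝ) + 1) ^ 3 * (1 / 2) ^ (m + 1))) *
      ENNReal.ofReal (1 / hm M)) atTop (𝓝 0) := by
    have := ENNReal.Tendsto.const_mul (a := ∑' m : ℕ, ENNReal.ofReal (((m : ℝ) + 1) ^ 3 *
      (1 / 2) ^ (m + 1))) h1 (Or.inr hW)
    rwa [mul_zero] at this
  refine tendsto_of_tendsto_of_tendsto_of_le_of_le' tendsto_const_nhds h2 ?_ ?_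
  · exact Eventually.of_forall fun _ => zero_le
  · filter_upwards [eventually_ge_atTop 1] with M hM
    exact eM_le hPh hM

end Pool.Agent.H181.HP
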