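import Pool.Agent.H181.HP.Stmts

open Filter Topology
open Pool.Agent.H424R3.Pow

namespace Pool.Agent.H181.HP.TaskDir

variable {V : Type} {G : SimpleGraph V}

lemma avg_eq (f : V → ℝ) {x : V} (h : (G.neighborSet x).Finite) :
    nbrAvg G f x = (∑ y ∈ h.toFinset, f y) / (h.toFinset.card : ℝ) := by
  unfold nbrAvg
  rw [finsum_mem_eq_finite_toFinset_sum _ h, Set.ncard_eq_toFinset_card _ h]

lemma avg_mono (hf : ∀ x, (G.neighborSet x).Finite) {f g : V → ℝ} (h : ∀ y, f y ≤ g y) (x : V) :
    nbrAvg G f x ≤ nbrAvg G g x := by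
  rw [avg_eq _ (hf x), avg_eq _ (hf x)]
  apply div_le_div_of_nonneg_right _ (Nat.cast_nonneg _)
  exact Finset.sum_le_sum (fun y _ => h y)

lemma avg_nonneg (hf : ∀ x, (G.neighborSet x).Finite) {f : V → ℝ} (h : ∀ y, 0 ≤ f y) (x : V) :
    0 ≤ nbrAvg G f x := by
  rw [avg_eq _ (hf x)]
  exact div_nonneg (Finset.sum_nonneg (fun y _ => h y)) (Nat.cast_nonneg _)

lemma avg_le_one (hf : ∀ x, (G.neighborSet x).Finite) {f : V → ℝ} (h : ∀ y, f y ≤ 1) (x : V) :
    nbrAvg G f x ≤ 1 := by
  rw [avg_eq _ (hf x)]
  apply div_le_one_of_le₀ _ (Nat.cast_nonneg _)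
  calc ∑ y ∈ (hf x).toFinset, f y ≤ ∑ y ∈ (hf x).toFinset, (1 : ℝ) :=
        Finset.sum_le_sum (fun y _ => h y)
    _ = ((hf x).toFinset.card : ℝ) := by simp

lemma hit_self (o : V) (n : ℕ) : hitWithin G o n o = 1 := by cases n <;> simp [hitWithin]

lemma hit_succ {o x : V} (h : x ≠ o) (n : ℕ) :
    hitWithin G o (n + 1) x = nbrAvg G (hitWithin G o n) x := by simp [hitWithin, h]

lemma hit_nonneg (hf : ∀ x, (G.neighborSet x).Finite) (o : V) (n : ℕ) :
    ∀ x, 0 ≤ hitWithin G o n x := by
  induction n with
  | zero => intro x; simp only [hitWithin]; split_ifs <;> norm_num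
  | succ n ih =>
    intro x
    by_cases h : x = o
    · rw [h, hit_self]; norm_num
    · rw [hit_succ h]; exact avg_nonneg hf ih x

lemma hit_le_one (hf : ∀ x, (G.neighborSet x).Finite) (o : V) (n : ℕ) :
    ∀ x, hitWithin G o n x ≤ 1 := by
  induction n with
  | zero => intro x; simp only [hitWithin]; split_ifs <;> norm_num
  | succ n ih =>
    intro x
    by_cases h : x = o
    · rw [h, hit_self]
    · rw [hit_succ h]; exact avg_le_one hf ih x

lemma hit_mono_succ (hf : ∀ x, (G.neighborSet x).Finite) (o : V) (n : ℕ) :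
    ∀ x, hitWithin G o n x ≤ hitWithin G o (n + 1) x := by
  induction n with
  | zero =>
    intro x
    by_cases h : x = o
    · rw [h, hit_self, hit_self]
    · have : hitWithin G o 0 x = 0 := by simp [hitWithin, h]
      rw [this]; exact hit_nonneg hf o _ x
  | succ n ih =>
    intro x
    by_cases h : x = o
    · rw [h, hit_self, hit_self]
    · rw [hit_succ h, hit_succ h]; exact avg_mono hf ih x

lemma support_hit (hf : ∀ x, (G.neighborSet x).Finite) (o : V) (n : ℕ) :
    (Function.support (hitWithin G o n)).Finite := by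
  induction n with
  | zero =>
    apply (Set.finite_singleton o).subset
    intro x hx
    by_contra h
    have h' : x ≠ o := h
    exact hx (by simp [hitWithin, h'])
  | succ n ih =>
    apply ((Set.finite_singleton o).union (ih.biUnion (fun y _ => hf y))).subset
    intro x hx
    by_cases h : x = o
    · left; exact h
    · right
      by_contra hc
      apply hx
      rw [hit_succ h, avg_eq _ (hf x), Finset.sum_eq_zero, zero_div]
      intro y hy
      by_contra hy0
      apply hc
      simp only [Set.mem_iUnion]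
      refine ⟨y, hy0, ?_⟩
      have : G.Adj x y := by simpa using hy
      exact this.symm

open Classical in
lemma green (hf : ∀ x, (G.neighborSet x).Finite) (f g : V → ℝ) (S : Finset V)
    (hS : ∀ x, f x ≠ 0 → x ∈ S ∧ ∀ y, G.Adj x y → y ∈ S) :
    ∑ p ∈ (S ×ˢ S).filter (fun p => G.Adj p.1 p.2), (f p.1 - f p.2) * (g p.1 - g p.2) =
      2 * ∑ x ∈ S, f x * (((hf x).toFinset.card : ℝ) * (g x - nbrAvg G g x)) := by
  set A : Finset (V × V) := (S ×ˢ S).filter (fun p => G.Adj p.1 p.2) with hA
  have hswap : ∑ p ∈ A, f p.2 * (g p.2 - g p.1) = ∑ p ∈ A, f p.1 * (g p.1 - g p.2) := by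
    apply Finset.sum_nbij' (fun p => (p.2, p.1)) (fun p => (p.2, p.1))
    · intro p hp
      simp only [A, Finset.mem_filter, Finset.mem_product] at hp ⊢
      exact ⟨⟨hp.1.2, hp.1.1⟩, hp.2.symm⟩
    · intro p hp
      simp only [A, Finset.mem_filter, Finset.mem_product] at hp ⊢
      exact ⟨⟨hp.1.2, hp.1.1⟩, hp.2.symm⟩
    · intro p _; rfl
    · intro p _; rfl
    · intro p _; rfl
  have h2 : ∑ p ∈ A, (f p.1 - f p.2) * (g p.1 - g p.2)
      = 2 * ∑ p ∈ A, f p.1 * (g p.1 - g p.2) := by
    have : ∑ p ∈ A, (f p.1 - f p.2) * (g p.1 - g p.2)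
        = ∑ p ∈ A, f p.1 * (g p.1 - g p.2) + ∑ p ∈ A, f p.2 * (g p.2 - g p.1) := by
      rw [← Finset.sum_add_distrib]
      apply Finset.sum_congr rfl
      intro p _; ring
    rw [this, hswap]; ring
  rw [h2, hA, Finset.sum_filter, Finset.sum_product]
  congr 1
  apply Finset.sum_congr rfl
  intro x hx
  by_cases hx0 : f x = 0
  · simp [hx0]
  · obtain ⟨_, hn⟩ := hS x hx0
    have h3 : ∀ y, (if G.Adj x y then f x * (g x - g y) else 0) =
        f x * (if G.Adj x y then (g x - g y) else 0) := by
      intro y; split_ifs <;> simp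
    simp only [h3]
    rw [← Finset.mul_sum, ← Finset.sum_filter]
    congr 1
    have h4 : S.filter (fun y => G.Adj x y) = (hf x).toFinset := by
      ext y
      simp only [Finset.mem_filter, Set.Finite.mem_toFinset, SimpleGraph.mem_neighborSet]
      exact ⟨fun h => h.2, fun h => ⟨hn y h, h⟩⟩
    rw [h4, Finset.sum_sub_distrib, Finset.sum_const, nsmul_eq_mul, avg_eq g (hf x)]
    by_cases hc : ((hf x).toFinset.card : ℝ) = 0
    · have : (hf x).toFinset = ∅ := by
        have h5 : (hf x).toFinset.card = 0 := by exact_mod_cast hc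
        exact Finset.card_eq_zero.1 h5
      rw [this]; simp
    · field_simp

theorem main : Pool.Agent.H181.HP.TaskDir := by
  classical
  intro V G o hf hpos hE
  have hmono : Monotone (fun n => returnWithin G o n) := by
    apply monotone_nat_of_le_succ
    intro n
    exact avg_mono hf (hit_mono_succ hf o n) o
  have hle : ∀ n, returnWithin G o n ≤ 1 := fun n => avg_le_one hf (hit_le_one hf o n) o
  have hbdd : BddAbove (Set.range (fun n => returnWithin G o n)) :=
    ⟨1, by rintro _ ⟨n, rfl⟩; exact hle n⟩
  have hlim := tendsto_atTop_ciSup hmono hbdd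
  set r : ℝ := ⨆ n, returnWithin G o n with hr
  have hr1 : r ≤ 1 := ciSup_le hle
  set d : ℝ := ((hf o).toFinset.card : ℝ) with hd
  have hd0 : 0 < d := by
    have : (hf o).toFinset.Nonempty := by
      obtain ⟨y, hy⟩ := hpos
      exact ⟨y, by simpa using hy⟩
    rw [hd]
    exact Nat.cast_pos.2 (Finset.card_pos.2 this)
  -- key bound
  have key : ∀ ε : ℝ, 0 < ε → (2 * d * (1 - r)) ^ 2 ≤ ε * (2 * d) := by
    intro ε hε
    obtain ⟨f, hfs, hfo, hfE⟩ := hE ε hε
    let R : ℕ → ℝ := fun n => ∑ x ∈ hfs.toFinset.erase o,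
      f x * (((hf x).toFinset.card : ℝ) * (hitWithin G o n x - hitWithin G o (n + 1) x))
    have hR : Tendsto R atTop (𝓝 0) := by
      have : Tendsto R atTop (𝓝 (∑ x ∈ hfs.toFinset.erase o,
          f x * (((hf x).toFinset.card : ℝ) * 0))) := by
        apply tendsto_finsetSum
        intro x _
        apply Tendsto.const_mul
        apply Tendsto.const_mul
        have hm : Monotone (fun n => hitWithin G o n x) :=
          monotone_nat_of_le_succ (fun n => hit_mono_succ hf o n x)
        have hb : BddAbove (Set.range (fun n => hitWithin G o n x)) :=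
          ⟨1, by rintro _ ⟨n, rfl⟩; exact hit_le_one hf o n x⟩
        have h1 := tendsto_atTop_ciSup hm hb
        have h2 := h1.comp (tendsto_add_atTop_nat 1)
        have h3 := h1.sub h2
        rw [sub_self] at h3
        exact h3
      simpa using this
    have hbound : ∀ n, (2 * d * (1 - returnWithin G o n) + 2 * R n) ^ 2 ≤ ε * (2 * d) := by
      intro n
      let h : V → ℝ := hitWithin G o n
      have hh : (Function.support h).Finite := support_hit hf o n
      let S0 : Finset V := hfs.toFinset ∪ hh.toFinset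
      let S : Finset V := S0 ∪ S0.biUnion (fun x => (hf x).toFinset)
      have hS0 : ∀ x, x ∈ S0 → x ∈ S ∧ ∀ y, G.Adj x y → y ∈ S := by
        intro x hx
        refine ⟨Finset.mem_union_left _ hx, fun y hy => Finset.mem_union_right _ ?_⟩
        rw [Finset.mem_biUnion]
        exact ⟨x, hx, by simpa using hy⟩
      have hSf : ∀ x, f x ≠ 0 → x ∈ S ∧ ∀ y, G.Adj x y → y ∈ S := fun x hx =>
        hS0 x (Finset.mem_union_left _ (by simpa using hx))
      have hSh : ∀ x, h x ≠ 0 → x ∈ S ∧ ∀ y, G.Adj x y → y ∈ S := fun x hx =>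
        hS0 x (Finset.mem_union_right _ (by simpa using hx))
      set A : Finset (V × V) := (S ×ˢ S).filter (fun p => G.Adj p.1 p.2) with hA
      have hoS : o ∈ S := (hSf o (by rw [hfo]; norm_num)).1
      have e1 := green hf f h S hSf
      have e2 := green hf h h S hSh
      have hho : h o = 1 := hit_self o n
      have hro : nbrAvg G h o = returnWithin G o n := rfl
      -- first identity
      have i1 : ∑ p ∈ A, (f p.1 - f p.2) * (h p.1 - h p.2) =
          2 * d * (1 - returnWithin G o n) + 2 * R n := by
        rw [e1, ← Finset.add_sum_erase S _ hoS, hfo, hho, hro]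
        have : ∑ x ∈ S.erase o, f x * (((hf x).toFinset.card : ℝ) * (h x - nbrAvg G h x)) = R n := by
          symm
          have hsub : hfs.toFinset.erase o ⊆ S.erase o := by
            intro x hx
            rw [Finset.mem_erase] at hx ⊢
            refine ⟨hx.1, (hSf x ?_).1⟩
            simpa using hx.2
          have : R n = ∑ x ∈ hfs.toFinset.erase o,
              f x * (((hf x).toFinset.card : ℝ) * (h x - nbrAvg G h x)) := by
            apply Finset.sum_congr rfl
            intro x hx
            rw [Finset.mem_erase] at hx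
            rw [hit_succ hx.1]
          rw [this]
          apply Finset.sum_subset hsub
          intro x hx hx'
          have : f x = 0 := by
            by_contra hne
            apply hx'
            rw [Finset.mem_erase] at hx ⊢
            exact ⟨hx.1, by simpa using hne⟩
          rw [this, zero_mul]
        rw [this]
        ring
      -- second estimate
      have i2 : ∑ p ∈ A, (h p.1 - h p.2) ^ 2 ≤ 2 * d := by
        have : ∑ p ∈ A, (h p.1 - h p.2) ^ 2 = ∑ p ∈ A, (h p.1 - h p.2) * (h p.1 - h p.2) :=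
          Finset.sum_congr rfl (fun p _ => by ring)
        rw [this, e2, ← Finset.add_sum_erase S _ hoS, hho, hro]
        have h1 : ∑ x ∈ S.erase o, h x * (((hf x).toFinset.card : ℝ) * (h x - nbrAvg G h x)) ≤ 0 := by
          apply Finset.sum_nonpos
          intro x hx
          rw [Finset.mem_erase] at hx
          apply mul_nonpos_of_nonneg_of_nonpos (hit_nonneg hf o n x)
          apply mul_nonpos_of_nonneg_of_nonpos (Nat.cast_nonneg _)
          have := hit_mono_succ hf o n x
          rw [hit_succ hx.1] at this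
          show hitWithin G o n x - nbrAvg G (hitWithin G o n) x ≤ 0
          linarith
        have h2 : 0 ≤ returnWithin G o n := avg_nonneg hf (hit_nonneg hf o n) o
        have h3 : d * (1 - returnWithin G o n) ≤ d := by nlinarith
        have h4 : (1:ℝ) * (d * (1 - returnWithin G o n)) = d * (1 - returnWithin G o n) := one_mul _
        rw [h4]
        linarith
      have i3 : ∑ p ∈ A, (f p.1 - f p.2) ^ 2 ≤ ε := by
        apply hfE
        intro p hp
        rw [hA, Finset.mem_filter] at hp
        exact hp.2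
      rw [← i1]
      calc (∑ p ∈ A, (f p.1 - f p.2) * (h p.1 - h p.2)) ^ 2
          ≤ (∑ p ∈ A, (f p.1 - f p.2) ^ 2) * ∑ p ∈ A, (h p.1 - h p.2) ^ 2 :=
            Finset.sum_mul_sq_le_sq_mul_sq _ _ _
        _ ≤ ε * (2 * d) := by
            apply mul_le_mul i3 i2 (Finset.sum_nonneg (fun _ _ => sq_nonneg _)) hε.le
    have ht : Tendsto (fun n => (2 * d * (1 - returnWithin G o n) + 2 * R n) ^ 2) atTop
        (𝓝 ((2 * d * (1 - r) + 2 * 0) ^ 2)) :=
      (((tendsto_const_nhds.sub hlim).const_mul _).add (hR.const_mul 2)).pow 2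
    have := le_of_tendsto ht (Filter.Eventually.of_forall hbound)
    simpa using this
  have hr' : r = 1 := by
    by_contra hne
    have he : 0 < 1 - r := by
      have : r < 1 := lt_of_le_of_ne hr1 hne
      linarith
    have := key (d * (1 - r) ^ 2) (by positivity)
    nlinarith [mul_pos hd0 hd0, mul_pos he he, mul_pos (mul_pos hd0 hd0) (mul_pos he he)]
  show Tendsto (fun n => returnWithin G o n) atTop (𝓝 1)
  rw [← hr']
  exact hlim

end Pool.Agent.H181.HP.TaskDir
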