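import Pool.Agent.H181.HP.Stmts
import Pool.Agent.H181.HP.TaskDir

open MeasureTheory Filter
open scoped ENNReal Topology
open Pool.Agent.H424R3.Pow

namespace Pool.Agent.H181.HP

lemma countable_HG (N : ℕ) (hN : 2 ≤ N) : Countable (HG N) := by
  haveI : NeZero N := ⟨by omega⟩
  haveI : Countable (ZMod N) := inferInstance
  infer_instance

theorem assembly (tEM : TaskEM) (tPh : TaskPh) (tHm : TaskHm) (tUlt : TaskUlt) (tLev : TaskLev)
    (tCard : TaskCard) (tSum : TaskSum) (tDbl : TaskDbl) (tCc : TaskCc) (tQ : TaskQ)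
    (tFin : TaskFin) (tFatou : TaskFatou) (tExp : TaskExp)
    (N : ℕ) (hN : 2 ≤ N) (C0 C1 C2 α : ℝ) (h0 : 0 ≤ C0) (h1 : 0 ≤ C1) (h2 : 0 < C2)
    (hα : α ≤ 1) (Ω : Type) [mΩ : MeasurableSpace Ω] (P : Measure Ω) [IsProbabilityMeasure P]
    (G : Ω → SimpleGraph (HG N))
    (hmeas : ∀ x y, MeasurableSet {ω | (G ω).Adj x y})
    (hp : ∀ x y, x ≠ y → P {ω | (G ω).Adj x y} ≤
      ENNReal.ofReal (min (cc C0 C1 C2 α (hdist x y) / (N : ℝ) ^ (2 * hdist x y)) 1)) :
    ∀ᵐ ω ∂P, (∀ x, ((G ω).neighborSet x).Finite) ∧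
      ∀ x, ((G ω).neighborSet x).Nonempty → Recurrent (G ω) x := by
  classical
  haveI := countable_HG N hN
  set C : ℝ := C0 + C1 + C2 with hC
  have hC0 : 0 ≤ C := by linarith
  have hNr : (0 : ℝ) < N := by
    have : 0 < N := by omega
    exact_mod_cast this
  let q : ℕ → ℝ≥0∞ := fun k => ENNReal.ofReal (C * (k : ℝ) / (N : ℝ) ^ (2 * k))
  have hq : ∀ x y : HG N, P {ω | (G ω).Adj x y} ≤ q (lev (x - y)) := by
    intro x y
    by_cases hxy : x = y
    · subst hxy
      have : {ω | (G ω).Adj x x} = ∅ := by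
        ext ω; simp
      rw [this]; simp
    · refine (hp x y hxy).trans ?_
      apply ENNReal.ofReal_le_ofReal
      refine (min_le_left _ _).trans ?_
      have hl : 1 ≤ hdist x y := by
        rw [Nat.one_le_iff_ne_zero]
        intro hz
        exact hxy (sub_eq_zero.1 (((tLev N hN).1 (x - y)).1 hz))
      exact div_le_div_of_nonneg_right (tCc C0 C1 C2 α h0 h1 h2 hα _ hl) (by positivity)
  -- local finiteness
  have hlf : ∀ x : HG N, ∀ᵐ ω ∂P, ((G ω).neighborSet x).Finite := by
    intro x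
    have hsum : ∑' y : HG N, P {ω | (G ω).Adj x y} ≠ ⊤ := by
      have h3 : ∑' y : HG N, P {ω | (G ω).Adj x y} ≤ ∑' y : HG N, q (lev (x - y)) :=
        ENNReal.tsum_le_tsum (fun y => hq x y)
      have h4 : ∑' y : HG N, q (lev (x - y)) = ∑' z : HG N, q (lev z) :=
        (Equiv.subLeft x).tsum_eq (fun z => q (lev z))
      rw [h4] at h3
      exact ne_top_of_le_ne_top (tFin tSum tCard N hN C hC0) h3
    have := MeasureTheory.ae_finite_setOf_mem hsum
    filter_upwards [this] with ω hω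
    exact hω
  -- recurrence
  have hrec : ∀ o : HG N, ∀ᵐ ω ∂P, ∀ ε : ℝ, 0 < ε → ∃ f : HG N → ℝ,
      (Function.support f).Finite ∧ f o = 1 ∧
      ∀ T : Finset (HG N × HG N), (∀ p ∈ T, (G ω).Adj p.1 p.2) →
        ∑ p ∈ T, (f p.1 - f p.2) ^ 2 ≤ ε := by
    intro o
    let f : ℕ → HG N → ℝ := fun M x => ph M (lev (x - o))
    let w : ℕ → HG N × HG N → ℝ≥0∞ := fun M p => ENNReal.ofReal ((f M p.1 - f M p.2) ^ 2)
    let A : HG N × HG N → Set Ω := fun p => {ω | (G ω).Adj p.1 p.2}
    have hA : ∀ p, MeasurableSet (A p) := fun p => hmeas p.1 p.2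
    let F : ℕ → Ω → ℝ≥0∞ := fun M ω =>
      ∑' p : HG N × HG N, (A p).indicator (fun _ => w M p) ω
    have hFm : ∀ M, Measurable (F M) := fun M => (tExp Ω mΩ P N hN A hA (w M)).1
    have hFi : ∀ M, ∫⁻ ω, F M ω ∂P ≤ 2 * (ENNReal.ofReal C * eM M) := by
      intro M
      calc ∫⁻ ω, F M ω ∂P = ∑' p : HG N × HG N, P (A p) * w M p :=
            (tExp Ω mΩ P N hN A hA (w M)).2
        _ ≤ ∑' p : HG N × HG N, q (lev (p.1 - p.2)) * w M p :=
            ENNReal.tsum_le_tsum (fun p => mul_le_mul_left (hq p.1 p.2) _)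
        _ = ∑' p : HG N × HG N, q (lev (p.1 - p.2)) *
              ENNReal.ofReal ((ph M (lev p.1) - ph M (lev p.2)) ^ 2) := by
            rw [← (Equiv.prodCongr (Equiv.subRight o) (Equiv.subRight o)).tsum_eq
              (fun p : HG N × HG N => q (lev (p.1 - p.2)) *
              ENNReal.ofReal ((ph M (lev p.1) - ph M (lev p.2)) ^ 2))]
            apply tsum_congr
            rintro ⟨a, b⟩
            simp [w, f]
        _ ≤ 2 * ∑' m : ℕ, ∑' j : ℕ, ((N : ℝ≥0∞) ^ j * (N : ℝ≥0∞) ^ (j + m + 1)) *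
              q (j + m + 1) * ENNReal.ofReal ((ph M j - ph M (j + m + 1)) ^ 2) :=
            tDbl tSum tCard tUlt N hN q (ph M)
        _ ≤ 2 * (ENNReal.ofReal C * eM M) := by
            apply mul_le_mul_right
            exact tQ N hN C hC0 M
    have hF0 : Tendsto (fun M => ∫⁻ ω, F M ω ∂P) atTop (𝓝 0) := by
      have h3 : Tendsto (fun M => 2 * (ENNReal.ofReal C * eM M)) atTop (𝓝 0) := by
        have h5 := ENNReal.Tendsto.const_mul (a := ENNReal.ofReal C) (tEM tPh tHm)
          (Or.inr ENNReal.ofReal_ne_top)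
        have h6 := ENNReal.Tendsto.const_mul (a := 2) h5 (Or.inr (by norm_num))
        simpa using h6
      exact tendsto_of_tendsto_of_tendsto_of_le_of_le tendsto_const_nhds h3
        (fun _ => zero_le) hFi
    filter_upwards [tFatou Ω mΩ P inferInstance F hFm hF0] with ω hω
    intro ε hε
    obtain ⟨M, hM, hM1⟩ := ((hω ε hε).and_eventually (eventually_ge_atTop 1)).exists
    have hhm : 0 < hm M := by
      unfold hm
      apply Finset.sum_pos
      · intro i _; positivity
      · exact ⟨0, Finset.mem_range.2 hM1⟩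
    refine ⟨f M, ?_, ?_, ?_⟩
    · have hfin := (tLev N hN).2.2 M
      apply (hfin.image (fun z => z + o)).subset
      intro x hx
      refine ⟨x - o, ?_, by simp⟩
      show lev (x - o) ≤ M
      by_contra hlt
      push Not at hlt
      apply hx
      show ph M (lev (x - o)) = 0
      unfold ph
      apply max_eq_left
      have : hm M ≤ hm (lev (x - o)) := by
        unfold hm
        apply Finset.sum_le_sum_of_subset_of_nonneg
        · intro i hi
          rw [Finset.mem_range] at hi ⊢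
          omega
        · intro i _ _; positivity
      have h7 : 1 ≤ hm (lev (x - o)) / hm M := by
        rw [le_div_iff₀ hhm]; linarith
      linarith
    · show ph M (lev (o - o)) = 1
      have : lev (o - o) = 0 := ((tLev N hN).1 _).2 (sub_self o)
      rw [this]
      simp [ph, hm]
    · intro T hT
      have h8 : ENNReal.ofReal (∑ p ∈ T, (f M p.1 - f M p.2) ^ 2) ≤ ENNReal.ofReal ε := by
        rw [ENNReal.ofReal_sum_of_nonneg (fun _ _ => sq_nonneg _)]
        refine le_trans ?_ hM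
        calc ∑ p ∈ T, ENNReal.ofReal ((f M p.1 - f M p.2) ^ 2)
            = ∑ p ∈ T, (A p).indicator (fun _ => w M p) ω := by
              apply Finset.sum_congr rfl
              intro p hp
              rw [Set.indicator_of_mem (show ω ∈ A p from hT p hp)]
          _ ≤ F M ω := ENNReal.sum_le_tsum T
      exact (ENNReal.ofReal_le_ofReal_iff hε.le).1 h8
  have hlf' : ∀ᵐ ω ∂P, ∀ x : HG N, ((G ω).neighborSet x).Finite := ae_all_iff.2 hlf
  have hrec' := ae_all_iff.2 hrec
  filter_upwards [hlf', hrec'] with ω hω1 hω2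
  exact ⟨hω1, fun x hx => TaskDir.main (HG N) (G ω) x hω1 hx (hω2 x)⟩

end Pool.Agent.H181.HP
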