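import Mathlib
import Pool.Agent.H424R3.PowDefs

/-!
Recurrence of simple random walk on hierarchical percolation clusters for `α ≤ 1`
(statements of the lemmas).
-/

open MeasureTheory Filter
open scoped ENNReal Topology

namespace Pool.Agent.H181.HP

/-- The hierarchical group of order `N` (coordinates are numbered from `0`). -/
abbrev HG (N : ℕ) : Type := ℕ →₀ ZMod N

/-- `lev x` is `0` if `x = 0` and otherwise one more than the last index of a nonzero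
coordinate (coordinates numbered from `0`), that is, the hierarchical distance of `x` to `0`. -/
noncomputable def lev {N : ℕ} (x : HG N) : ℕ := x.support.sup (fun i => i + 1)

/-- The hierarchical distance. -/
noncomputable def hdist {N : ℕ} (x y : HG N) : ℕ := lev (x - y)

/-- `c_k = C_0 + C_1 log k + C_2 k^α`. -/
noncomputable def cc (C0 C1 C2 α : ℝ) (k : ℕ) : ℝ :=
  C0 + C1 * Real.log k + C2 * (k : ℝ) ^ α

/-- harmonic numbers -/
noncomputable def hm (k : ℕ) : ℝ := ∑ i ∈ Finset.range k, 1 / ((i : ℝ) + 1)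

/-- the test functions -/
noncomputable def ph (M k : ℕ) : ℝ := max 0 (1 - hm k / hm M)

/-- the energy bound -/
noncomputable def eM (M : ℕ) : ℝ≥0∞ :=
  ∑' m : ℕ, ∑' j : ℕ, ENNReal.ofReal (((j : ℝ) + m + 1) * (1 / 2) ^ (m + 1) *
    (ph M j - ph M (j + m + 1)) ^ 2)

/-- Deterministic part: test functions of small energy give recurrence. -/
def TaskDir : Prop := ∀ (V : Type) (G : SimpleGraph V) (o : V),
  (∀ x, (G.neighborSet x).Finite) → (G.neighborSet o).Nonempty →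
  (∀ ε : ℝ, 0 < ε → ∃ f : V → ℝ, (Function.support f).Finite ∧ f o = 1 ∧
    ∀ T : Finset (V × V), (∀ p ∈ T, G.Adj p.1 p.2) → ∑ p ∈ T, (f p.1 - f p.2) ^ 2 ≤ ε) →
  Pool.Agent.H424R3.Pow.Recurrent G o

/-- bound of the increments of the test functions -/
def TaskPh : Prop := ∀ M j m : ℕ, 1 ≤ M →
  0 ≤ ph M j - ph M (j + m + 1) ∧
  ph M j - ph M (j + m + 1) ≤ ((m : ℝ) + 1) / (((j : ℝ) + 1) * hm M) ∧
  (M ≤ j → ph M j - ph M (j + m + 1) = 0)

/-- the harmonic numbers tend to infinity -/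
def TaskHm : Prop := Tendsto hm atTop atTop

/-- the energy bound tends to zero.  (Use `ofReal (...) ≤ ofReal ((m+1)^3 (1/2)^(m+1) / hm M^2)
  * ofReal (1/(j+1))` for `j < M`, and `0` for `j ≥ M`; so `eM M ≤ W / hm M`.) -/
def TaskEM : Prop := TaskPh → TaskHm → Tendsto eM atTop (𝓝 0)

/-- ultrametric property -/
def TaskUlt : Prop := ∀ (N : ℕ), 2 ≤ N → ∀ x y : HG N, lev x ≠ lev y →
  lev (x - y) = max (lev x) (lev y)

/-- elementary facts on the level -/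
def TaskLev : Prop := ∀ (N : ℕ), 2 ≤ N → (∀ x : HG N, lev x = 0 ↔ x = 0) ∧
  (∀ x : HG N, lev (-x) = lev x) ∧
  ∀ M : ℕ, {x : HG N | lev x ≤ M}.Finite

/-- there are at most `N^k` points of level `k` -/
def TaskCard : Prop := ∀ (N : ℕ), 2 ≤ N → ∀ k : ℕ,
  {x : HG N | lev x = k}.encard ≤ ((N ^ k : ℕ) : ℕ∞)

/-- sums of level functions -/
def TaskSum : Prop := TaskCard → ∀ (N : ℕ), 2 ≤ N → ∀ g : ℕ → ℝ≥0∞,
  ∑' x : HG N, g (lev x) ≤ ∑' k : ℕ, ((N : ℝ≥0∞) ^ k) * g k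

/-- double sums of level functions -/
def TaskDbl : Prop := TaskSum → TaskCard → TaskUlt → ∀ (N : ℕ), 2 ≤ N →
  ∀ (q : ℕ → ℝ≥0∞) (φ : ℕ → ℝ),
  ∑' p : HG N × HG N, q (lev (p.1 - p.2)) * ENNReal.ofReal ((φ (lev p.1) - φ (lev p.2)) ^ 2)
    ≤ 2 * ∑' m : ℕ, ∑' j : ℕ, ((N : ℝ≥0∞) ^ j * (N : ℝ≥0∞) ^ (j + m + 1)) *
      q (j + m + 1) * ENNReal.ofReal ((φ j - φ (j + m + 1)) ^ 2)

/-- bound of the connection probabilities -/
def TaskCc : Prop := ∀ (C0 C1 C2 α : ℝ), 0 ≤ C0 → 0 ≤ C1 → 0 < C2 → α ≤ 1 →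
  ∀ k : ℕ, 1 ≤ k → cc C0 C1 C2 α k ≤ (C0 + C1 + C2) * k

/-- the double sum with `q k = C k / N^(2k)` is at most `2 C eM` -/
def TaskQ : Prop := ∀ (N : ℕ), 2 ≤ N → ∀ (C : ℝ), 0 ≤ C → ∀ M : ℕ,
  ∑' m : ℕ, ∑' j : ℕ, ((N : ℝ≥0∞) ^ j * (N : ℝ≥0∞) ^ (j + m + 1)) *
      ENNReal.ofReal (C * ((j + m + 1 : ℕ) : ℝ) / (N : ℝ) ^ (2 * (j + m + 1))) *
      ENNReal.ofReal ((ph M j - ph M (j + m + 1)) ^ 2)
    ≤ ENNReal.ofReal C * eM M

/-- summability giving local finiteness -/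
def TaskFin : Prop := TaskSum → TaskCard → ∀ (N : ℕ), 2 ≤ N → ∀ (C : ℝ), 0 ≤ C →
  ∑' x : HG N, ENNReal.ofReal (C * (lev x : ℝ) / (N : ℝ) ^ (2 * lev x)) ≠ ⊤

/-- Fatou: nonnegative random variables with expectations tending to zero are small infinitely
often. -/
def TaskFatou : Prop := ∀ (Ω : Type) (_ : MeasurableSpace Ω) (P : Measure Ω),
  IsProbabilityMeasure P → ∀ F : ℕ → Ω → ℝ≥0∞, (∀ n, Measurable (F n)) →
  Tendsto (fun n => ∫⁻ ω, F n ω ∂P) atTop (𝓝 0) →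
  ∀ᵐ ω ∂P, ∀ ε : ℝ, 0 < ε → ∃ᶠ n in atTop, F n ω ≤ ENNReal.ofReal ε

/-- expectation of the random energy -/
def TaskExp : Prop := ∀ (Ω : Type) (_ : MeasurableSpace Ω) (P : Measure Ω) (N : ℕ), 2 ≤ N →
  ∀ (A : HG N × HG N → Set Ω), (∀ p, MeasurableSet (A p)) → ∀ w : HG N × HG N → ℝ≥0∞,
  (Measurable fun ω => ∑' p : HG N × HG N, (A p).indicator (fun _ => w p) ω) ∧
  ∫⁻ ω, ∑' p : HG N × HG N, (A p).indicator (fun _ => w p) ω ∂P =
    ∑' p : HG N × HG N, P (A p) * w p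

end Pool.Agent.H181.HP
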