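import Pool.Agent.H181.HP.Stmts

set_option autoImplicit false

namespace Pool.Agent.H181.HP.TaskCard

open Pool.Agent.H181.HP

theorem main : Pool.Agent.H181.HP.TaskCard := by
  classical
  intro N hN k
  haveI : NeZero N := ⟨by omega⟩
  have hz : ∀ x : HG N, lev x = k → ∀ i, k ≤ i → x i = 0 := by
    intro x hx i hi
    by_contra hne
    have h1 : i ∈ x.support := Finsupp.mem_support_iff.2 hne
    have h2 : i + 1 ≤ lev x := Finset.le_sup (f := fun i => i + 1) h1
    omega
  have h1 : {x : HG N | lev x = k}.encard ≤ (Set.univ : Set (Fin k → ZMod N)).encard := by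
    apply Set.encard_le_encard_of_injOn (f := fun x : HG N => fun i : Fin k => x i)
    · intro x _
      exact Set.mem_univ _
    · intro x hx y hy hxy
      ext i
      by_cases hi : i < k
      · exact congrFun hxy ⟨i, hi⟩
      · rw [hz x hx i (not_lt.1 hi), hz y hy i (not_lt.1 hi)]
  refine h1.trans (le_of_eq ?_)
  rw [Set.encard_univ, ENat.card_eq_coe_fintype_card, Fintype.card_fun, ZMod.card, Fintype.card_fin]

end Pool.Agent.H181.HP.TaskCard
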