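import Pool.Agent.H181.HP.Stmts

set_option autoImplicit false

namespace Pool.Agent.H181.HP.TaskCc

theorem main : Pool.Agent.H181.HP.TaskCc := by
  intro C0 C1 C2 α h0 h1 h2 hα k hk
  have hk1 : (1 : ℝ) ≤ k := by exact_mod_cast hk
  have hk0 : (0 : ℝ) < k := by linarith
  unfold cc
  have h3 : C0 * 1 ≤ C0 * k := mul_le_mul_of_nonneg_left hk1 h0
  have h4 : C1 * Real.log k ≤ C1 * k :=
    mul_le_mul_of_nonneg_left ((Real.log_le_sub_one_of_pos hk0).trans (by linarith)) h1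
  have h5 : (k : ℝ) ^ α ≤ k := by
    have := Real.rpow_le_rpow_of_exponent_le hk1 hα
    rwa [Real.rpow_one] at this
  have h6 : C2 * (k : ℝ) ^ α ≤ C2 * k := mul_le_mul_of_nonneg_left h5 h2.le
  rw [add_mul, add_mul]
  linarith

end Pool.Agent.H181.HP.TaskCc
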