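import Pool.Agent.H181.HP.Stmts

open MeasureTheory Filter
open scoped ENNReal Topology

namespace Pool.Agent.H181.HP.TaskDbl

open Pool.Agent.H181.HP

/-- a symmetric double sum vanishing on the diagonal -/
theorem double (H : ℕ → ℕ → ℝ≥0∞) (hs : ∀ j k, H j k = H k j) (hd : ∀ j, H j j = 0) :
    ∑' j : ℕ, ∑' k : ℕ, H j k = 2 * ∑' m : ℕ, ∑' j : ℕ, H j (j + m + 1) := by
  have h1 : ∀ j k : ℕ, H j k = (if j < k then H j k else 0) + (if k < j then H k j else 0) := by
    intro j k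
    rcases lt_trichotomy j k with h | h | h
    · rw [if_pos h, if_neg (by omega), add_zero]
    · subst h
      rw [hd]; simp
    · rw [if_neg (by omega), if_pos h, zero_add, hs]
  have h2 : ∀ j : ℕ, ∑' k : ℕ, (if j < k then H j k else 0) = ∑' m : ℕ, H j (j + m + 1) := by
    intro j
    have h := Summable.sum_add_tsum_nat_add' (M := ℝ≥0∞) (f := fun k => if j < k then H j k else 0)
      (k := j + 1) ENNReal.summable
    rw [← h]
    have h0 : ∑ i ∈ Finset.range (j + 1), (if j < i then H j i else 0) = 0 := by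
      refine Finset.sum_eq_zero fun i hi => ?_
      have := Finset.mem_range.1 hi
      rw [if_neg (by omega)]
    rw [h0, zero_add]
    refine tsum_congr fun m => ?_
    rw [if_pos (by omega)]
    congr 1
    omega
  calc ∑' j : ℕ, ∑' k : ℕ, H j k
      = ∑' j : ℕ, ∑' k : ℕ, ((if j < k then H j k else 0) + (if k < j then H k j else 0)) :=
        tsum_congr fun j => tsum_congr fun k => h1 j k
    _ = ∑' j : ℕ, ((∑' k : ℕ, if j < k then H j k else 0) + ∑' k : ℕ, if k < j then H k j else 0) :=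
        tsum_congr fun j => ENNReal.tsum_add
    _ = (∑' j : ℕ, ∑' k : ℕ, if j < k then H j k else 0) +
          ∑' j : ℕ, ∑' k : ℕ, if k < j then H k j else 0 := ENNReal.tsum_add
    _ = (∑' j : ℕ, ∑' k : ℕ, if j < k then H j k else 0) +
          ∑' k : ℕ, ∑' j : ℕ, if k < j then H k j else 0 := by
        congr 1
        exact ENNReal.tsum_comm
    _ = 2 * ∑' j : ℕ, ∑' k : ℕ, (if j < k then H j k else 0) := by rw [two_mul]
    _ = 2 * ∑' j : ℕ, ∑' m : ℕ, H j (j + m + 1) := by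
        congr 1
        exact tsum_congr h2
    _ = 2 * ∑' m : ℕ, ∑' j : ℕ, H j (j + m + 1) := by
        congr 1
        exact ENNReal.tsum_comm

theorem main : Pool.Agent.H181.HP.TaskDbl := by
  intro hSum hCard hUlt N hN q φ
  have hS := hSum hCard N hN
  set h : ℕ → ℕ → ℝ≥0∞ := fun a b => q (max a b) * ENNReal.ofReal ((φ a - φ b) ^ 2) with hh
  have hsym : ∀ a b, h a b = h b a := by
    intro a b
    simp only [hh]
    rw [max_comm, show (φ a - φ b) ^ 2 = (φ b - φ a) ^ 2 by ring]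
  have hdiag : ∀ a, h a a = 0 := by
    intro a
    simp [hh]
  have hterm : ∀ p : HG N × HG N,
      q (lev (p.1 - p.2)) * ENNReal.ofReal ((φ (lev p.1) - φ (lev p.2)) ^ 2) =
        h (lev p.1) (lev p.2) := by
    intro p
    by_cases he : lev p.1 = lev p.2
    · rw [he, hdiag]
      simp
    · simp only [hh]
      rw [hUlt N hN p.1 p.2 he]
  calc ∑' p : HG N × HG N, q (lev (p.1 - p.2)) * ENNReal.ofReal ((φ (lev p.1) - φ (lev p.2)) ^ 2)
      = ∑' p : HG N × HG N, h (lev p.1) (lev p.2) := tsum_congr hterm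
    _ = ∑' x : HG N, ∑' y : HG N, h (lev x) (lev y) :=
        ENNReal.tsum_prod (f := fun x y : HG N => h (lev x) (lev y))
    _ ≤ ∑' x : HG N, ∑' k : ℕ, (N : ℝ≥0∞) ^ k * h (lev x) k :=
        ENNReal.tsum_le_tsum fun x => hS (fun k => h (lev x) k)
    _ ≤ ∑' j : ℕ, (N : ℝ≥0∞) ^ j * ∑' k : ℕ, (N : ℝ≥0∞) ^ k * h j k :=
        hS (fun j => ∑' k : ℕ, (N : ℝ≥0∞) ^ k * h j k)
    _ = ∑' j : ℕ, ∑' k : ℕ, (N : ℝ≥0∞) ^ j * ((N : ℝ≥0∞) ^ k * h j k) :=
        tsum_congr fun j => ENNReal.tsum_mul_left.symm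
    _ = 2 * ∑' m : ℕ, ∑' j : ℕ, (N : ℝ≥0∞) ^ j * ((N : ℝ≥0∞) ^ (j + m + 1) * h j (j + m + 1)) := by
        refine double (fun j k => (N : ℝ≥0∞) ^ j * ((N : ℝ≥0∞) ^ k * h j k)) ?_ ?_
        · intro j k
          rw [hsym j k]
          ring
        · intro j
          rw [hdiag, mul_zero, mul_zero]
    _ = 2 * ∑' m : ℕ, ∑' j : ℕ, ((N : ℝ≥0∞) ^ j * (N : ℝ≥0∞) ^ (j + m + 1)) *
      q (j + m + 1) * ENNReal.ofReal ((φ j - φ (j + m + 1)) ^ 2) := by
        congr 1
        refine tsum_congr fun m => tsum_congr fun j => ?_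
        simp only [hh]
        rw [max_eq_right (by omega : j ≤ j + m + 1)]
        ring

end Pool.Agent.H181.HP.TaskDbl
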