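import Pool.Agent.H181.HP.Stmts

set_option autoImplicit false

open MeasureTheory Filter
open scoped ENNReal Topology

namespace Pool.Agent.H181.HP.TaskExp

open Pool.Agent.H181.HP

theorem main : Pool.Agent.H181.HP.TaskExp := by
  intro Ω _ P N hN A hA w
  haveI : NeZero N := ⟨by omega⟩
  haveI : Finite (ZMod N) := inferInstance
  haveI : Countable (HG N × HG N) := inferInstance
  have hm : ∀ p : HG N × HG N, Measurable fun ω => (A p).indicator (fun _ => w p) ω :=
    fun p => measurable_const.indicator (hA p)
  refine ⟨Measurable.ennreal_tsum hm, ?_⟩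
  rw [lintegral_tsum fun p => (hm p).aemeasurable]
  refine tsum_congr fun p => ?_
  rw [lintegral_indicator_const (hA p), mul_comm]

end Pool.Agent.H181.HP.TaskExp
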