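import Pool.Agent.H181.HP.Stmts

/-! Proof of `TaskFatou` (blueprint of helper181), by helper59. -/

open MeasureTheory Filter
open scoped ENNReal Topology

namespace Pool.Agent.H181.HP.TaskFatou

theorem fat (Ω : Type) (_ : MeasurableSpace Ω) (P : Measure Ω) (F : ℕ → Ω → ℝ≥0∞)
    (hF : ∀ n, Measurable (F n)) (hlim : Tendsto (fun n => ∫⁻ ω, F n ω ∂P) atTop (𝓝 0)) :
    ∀ᵐ ω ∂P, ∀ ε : ℝ, 0 < ε → ∃ᶠ n in atTop, F n ω ≤ ENNReal.ofReal ε := by
  have h1 : ∫⁻ ω, liminf (fun n => F n ω) atTop ∂P ≤ 0 := by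
    calc _ ≤ liminf (fun n => ∫⁻ ω, F n ω ∂P) atTop := lintegral_liminf_le hF
      _ = 0 := hlim.liminf_eq
  have h2 : Measurable (fun ω => liminf (fun n => F n ω) atTop) := Measurable.liminf hF
  have h3 := (lintegral_eq_zero_iff h2).1 (le_antisymm h1 (zero_le))
  filter_upwards [h3] with ω hω ε hε
  rw [Pi.zero_apply] at hω
  by_contra hcon
  rw [not_frequently] at hcon
  have h4 : ENNReal.ofReal ε ≤ liminf (fun n => F n ω) atTop := by
    apply le_liminf_of_le
    · isBoundedDefault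
    · filter_upwards [hcon] with n hn
      exact (not_le.1 hn).le
  rw [hω] at h4
  have := ENNReal.ofReal_pos.2 hε
  exact absurd h4 (not_le.2 this)

theorem main : Pool.Agent.H181.HP.TaskFatou := by
  intro Ω hΩ P _ F hF hlim
  exact fat Ω hΩ P F hF hlim

end Pool.Agent.H181.HP.TaskFatou
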