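import Pool.Agent.H181.HP.Stmts

open MeasureTheory Filter
open scoped ENNReal Topology

namespace Pool.Agent.H181.HP.TaskFin

open Pool.Agent.H181.HP

theorem main : Pool.Agent.H181.HP.TaskFin := by
  intro hSum hCard N hN C hC
  have h1 := hSum hCard N hN (fun k => ENNReal.ofReal (C * (k : ℝ) / (N : ℝ) ^ (2 * k)))
  refine ne_top_of_le_ne_top ?_ h1
  have hN' : (2 : ℝ) ≤ (N : ℝ) := by exact_mod_cast hN
  have hN0 : (0 : ℝ) < (N : ℝ) := by linarith
  have h2 : ∀ k : ℕ, (N : ℝ≥0∞) ^ k * ENNReal.ofReal (C * (k : ℝ) / (N : ℝ) ^ (2 * k)) =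
      ENNReal.ofReal (C * ((k : ℝ) ^ 1 * (1 / (N : ℝ)) ^ k)) := by
    intro k
    have e1 : (N : ℝ≥0∞) ^ k = ENNReal.ofReal ((N : ℝ) ^ k) := by
      rw [ENNReal.ofReal_pow hN0.le, ENNReal.ofReal_natCast]
    rw [e1, ← ENNReal.ofReal_mul (by positivity)]
    congr 1
    rw [pow_one, one_div, inv_pow, two_mul, pow_add]
    field_simp
  simp only [h2]
  apply Summable.tsum_ofReal_ne_top
  apply Summable.mul_left
  apply summable_pow_mul_geometric_of_norm_lt_one
  rw [Real.norm_eq_abs, abs_of_pos (by positivity), div_lt_one hN0]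
  linarith

end Pool.Agent.H181.HP.TaskFin
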