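import Pool.Agent.H181.HP.Stmts

open MeasureTheory Filter
open scoped ENNReal Topology

namespace Pool.Agent.H181.HP.THm

open Pool.Agent.H181.HP

theorem main : TaskHm := by
  unfold TaskHm
  have h : hm = fun n : ℕ => ∑ i ∈ Finset.range n, (1 / ((i : ℝ) + 1)) := rfl
  rw [h]
  exact Real.tendsto_sum_range_one_div_nat_succ_atTop

end Pool.Agent.H181.HP.THm
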