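import Pool.Agent.H181.HP.Stmts

open MeasureTheory Filter
open scoped ENNReal Topology

namespace Pool.Agent.H181.HP.TaskLev

open Pool.Agent.H181.HP

theorem main : Pool.Agent.H181.HP.TaskLev := by
  intro N hN
  have hle : ∀ (x : HG N) (M : ℕ), lev x ≤ M → ∀ i, M ≤ i → x i = 0 := by
    intro x M hx i hi
    by_contra hne
    have h1 : i + 1 ≤ lev x :=
      Finset.le_sup (f := fun i => i + 1) (Finsupp.mem_support_iff.mpr hne)
    omega
  refine ⟨?_, ?_, ?_⟩
  · intro x
    constructor
    · intro hx
      ext i
      exact hle x 0 hx.le i (Nat.zero_le i)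
    · rintro rfl
      simp [lev]
  · intro x
    simp only [lev, Finsupp.support_neg]
  · intro M
    have : NeZero N := ⟨by omega⟩
    refine Set.Finite.of_finite_image (f := fun (x : HG N) (i : Fin M) => x i)
      (Set.toFinite _) ?_
    intro x hx y hy hxy
    ext i
    by_cases hi : i < M
    · exact congrFun hxy ⟨i, hi⟩
    · rw [hle x M hx i (by omega), hle y M hy i (by omega)]

end Pool.Agent.H181.HP.TaskLev
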