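import Pool.Agent.H181.HP.Stmts

open MeasureTheory Filter
open scoped ENNReal Topology

namespace Pool.Agent.H181.HP.TaskPh

open Pool.Agent.H181.HP

theorem hm_succ (k : ℕ) : hm (k + 1) = hm k + 1 / ((k : ℝ) + 1) := by
  unfold hm
  rw [Finset.sum_range_succ]

theorem hm_mono : Monotone hm := by
  refine monotone_nat_of_le_succ fun k => ?_
  rw [hm_succ]
  have : (0 : ℝ) ≤ 1 / ((k : ℝ) + 1) := by positivity
  linarith

theorem hm_pos (M : ℕ) (hM : 1 ≤ M) : 0 < hm M := by
  have h1 : hm 1 = 1 := by unfold hm; simp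
  have h2 := hm_mono hM
  linarith

theorem hm_inc (j m : ℕ) : hm (j + m + 1) - hm j ≤ ((m : ℝ) + 1) / ((j : ℝ) + 1) := by
  induction m with
  | zero =>
    rw [Nat.add_zero, hm_succ]
    simp
  | succ m ih =>
    rw [show j + (m + 1) + 1 = (j + m + 1) + 1 by ring, hm_succ]
    have h1 : 1 / (((j + m + 1 : ℕ) : ℝ) + 1) ≤ 1 / ((j : ℝ) + 1) := by
      apply one_div_le_one_div_of_le (by positivity)
      push_cast
      have : (0 : ℝ) ≤ (m : ℝ) := Nat.cast_nonneg m
      linarith
    have h2 : (((m + 1 : ℕ) : ℝ) + 1) / ((j : ℝ) + 1) = ((m : ℝ) + 1) / ((j : ℝ) + 1) + 1 / ((j : ℝ) + 1) := by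
      push_cast
      ring
    rw [h2]
    linarith

theorem main : Pool.Agent.H181.HP.TaskPh := by
  intro M j m hM
  have hp := hm_pos M hM
  have hmo : hm j ≤ hm (j + m + 1) := hm_mono (by omega)
  have hd : hm j / hm M ≤ hm (j + m + 1) / hm M := div_le_div_of_nonneg_right hmo hp.le
  refine ⟨?_, ?_, ?_⟩
  · unfold ph
    have : max 0 (1 - hm (j + m + 1) / hm M) ≤ max 0 (1 - hm j / hm M) :=
      max_le_max (le_refl 0) (by linarith)
    linarith
  · have h1 : ph M j - ph M (j + m + 1) ≤ (hm (j + m + 1) - hm j) / hm M := by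
      unfold ph
      rw [sub_div]
      have h2 : max 0 (1 - hm j / hm M) ≤
          max 0 (1 - hm (j + m + 1) / hm M) + (hm (j + m + 1) / hm M - hm j / hm M) := by
        apply max_le
        · have := le_max_left 0 (1 - hm (j + m + 1) / hm M)
          linarith
        · have := le_max_right 0 (1 - hm (j + m + 1) / hm M)
          linarith
      linarith
    refine h1.trans ?_
    have h3 := div_le_div_of_nonneg_right (hm_inc j m) hp.le
    rwa [div_div] at h3
  · intro hMj
    have h1 : hm M ≤ hm j := hm_mono hMj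
    have h2 : 1 ≤ hm j / hm M := (one_le_div hp).2 h1
    have h3 : 1 ≤ hm (j + m + 1) / hm M := h2.trans hd
    unfold ph
    rw [max_eq_left (by linarith), max_eq_left (by linarith), sub_self]

end Pool.Agent.H181.HP.TaskPh
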