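import Pool.Agent.H181.HP.Stmts

/-!
The double sum with `q k = C k / N^(2k)` (blueprint of helper181 for MP_133e92_pr).
-/

set_option autoImplicit false

open MeasureTheory Filter
open scoped ENNReal Topology

namespace Pool.Agent.H181.HP.TaskQ

open Pool.Agent.H181.HP

theorem main : Pool.Agent.H181.HP.TaskQ := by
  intro N hN C hC M
  unfold eM
  rw [← ENNReal.tsum_mul_left]
  refine ENNReal.tsum_le_tsum fun m => ?_
  rw [← ENNReal.tsum_mul_left]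
  refine ENNReal.tsum_le_tsum fun j => ?_
  have hN0 : (0 : ℝ) < N := by
    have : 0 < N := by omega
    exact_mod_cast this
  have hN2 : (2 : ℝ) ≤ N := by exact_mod_cast hN
  have hcast : ∀ k : ℕ, (N : ℝ≥0∞) ^ k = ENNReal.ofReal ((N : ℝ) ^ k) := by
    intro k
    rw [ENNReal.ofReal_pow hN0.le, ENNReal.ofReal_natCast]
  obtain ⟨D, hD⟩ : ∃ D, D = (ph M j - ph M (j + m + 1)) ^ 2 := ⟨_, rfl⟩
  have hD0 : 0 ≤ D := by rw [hD]; positivity
  have hs : (0 : ℝ) ≤ ((j + m + 1 : ℕ) : ℝ) := Nat.cast_nonneg _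
  have hq : (0 : ℝ) ≤ C * ((j + m + 1 : ℕ) : ℝ) / (N : ℝ) ^ (2 * (j + m + 1)) := by positivity
  rw [← hD, hcast, hcast, ← ENNReal.ofReal_mul (by positivity), ← ENNReal.ofReal_mul (by positivity),
    ← ENNReal.ofReal_mul (by positivity), ← ENNReal.ofReal_mul hC]
  refine ENNReal.ofReal_le_ofReal ?_
  have hpow : (N : ℝ) ^ (2 * (j + m + 1)) = (N : ℝ) ^ j * (N : ℝ) ^ (j + m + 1) * (N : ℝ) ^ (m + 1) := by
    rw [← pow_add, ← pow_add]
    congr 1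
    ring
  have hle : (1 / (N : ℝ)) ^ (m + 1) ≤ (1 / 2 : ℝ) ^ (m + 1) :=
    pow_le_pow_left₀ (by positivity) (one_div_le_one_div_of_le (by norm_num) hN2) _
  have e : (N : ℝ) ^ j * (N : ℝ) ^ (j + m + 1) *
      (C * ((j + m + 1 : ℕ) : ℝ) / (N : ℝ) ^ (2 * (j + m + 1))) * D =
      (C * ((j + m + 1 : ℕ) : ℝ) * D) * (1 / (N : ℝ)) ^ (m + 1) := by
    rw [hpow, one_div, inv_pow]
    field_simp
  rw [e]
  have h1 : (C * ((j + m + 1 : ℕ) : ℝ) * D) * (1 / (N : ℝ)) ^ (m + 1) ≤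
      (C * ((j + m + 1 : ℕ) : ℝ) * D) * (1 / 2 : ℝ) ^ (m + 1) :=
    mul_le_mul_of_nonneg_left hle (by positivity)
  refine h1.trans (le_of_eq ?_)
  push_cast
  ring

end Pool.Agent.H181.HP.TaskQ
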