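import Pool.Agent.H181.HP.Stmts

open scoped ENNReal

namespace Pool.Agent.H181.HP.TaskSum

open Pool.Agent.H181.HP

theorem main : Pool.Agent.H181.HP.TaskSum := by
  intro hcard N hN g
  rw [← ENNReal.tsum_fiberwise (fun x : HG N => g (lev x)) lev]
  refine ENNReal.tsum_le_tsum fun k => ?_
  have h1 : ∀ b : (lev ⁻¹' {k} : Set (HG N)), g (lev (b : HG N)) = g k := fun b => by
    rw [show lev (b : HG N) = k from b.2]
  rw [tsum_congr h1, ENNReal.tsum_const]
  gcongr
  have h2 := hcard N hN k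
  have h3 : (ENat.card (lev ⁻¹' {k} : Set (HG N))) ≤ ((N ^ k : ℕ) : ℕ∞) := by
    have h4 : ENat.card (lev ⁻¹' {k} : Set (HG N)) = (lev ⁻¹' {k} : Set (HG N)).encard := rfl
    rw [h4]
    exact h2
  have h5 := ENat.toENNReal_le.2 h3
  refine h5.trans (le_of_eq ?_)
  push_cast
  simp

end Pool.Agent.H181.HP.TaskSum
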