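import Pool.Agent.H181.HP.Stmts

set_option autoImplicit false

namespace Pool.Agent.H181.HP.TaskUlt

open Pool.Agent.H181.HP

private theorem le_iff {N : ℕ} (x : HG N) (M : ℕ) : lev x ≤ M ↔ ∀ i, M ≤ i → x i = 0 := by
  unfold lev
  rw [Finset.sup_le_iff]
  constructor
  · intro h i hi
    by_contra hx
    have := h i (Finsupp.mem_support_iff.2 hx)
    omega
  · intro h i hi
    by_contra hlt
    exact Finsupp.mem_support_iff.1 hi (h i (by omega))

theorem main : Pool.Agent.H181.HP.TaskUlt := by
  intro N _ x y hxy
  refine le_antisymm ?_ ?_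
  · rw [le_iff]
    intro i hi
    have hx := (le_iff x (lev x)).1 le_rfl i ((le_max_left _ _).trans hi)
    have hy := (le_iff y (lev y)).1 le_rfl i ((le_max_right _ _).trans hi)
    rw [Finsupp.sub_apply, hx, hy, sub_zero]
  · by_contra hlt
    rw [not_le] at hlt
    rcases lt_or_gt_of_ne hxy with h | h
    · rw [max_eq_right h.le] at hlt
      have h1 := (le_iff (x - y) (lev y - 1)).1 (by omega)
      have h2 := (le_iff x (lev y - 1)).1 (by omega)
      have h3 : lev y ≤ lev y - 1 := by
        rw [le_iff y]
        intro i hi
        have h4 := h1 i hi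
        rw [Finsupp.sub_apply, h2 i hi, zero_sub, neg_eq_zero] at h4
        exact h4
      omega
    · rw [max_eq_left h.le] at hlt
      have h1 := (le_iff (x - y) (lev x - 1)).1 (by omega)
      have h2 := (le_iff y (lev x - 1)).1 (by omega)
      have h3 : lev x ≤ lev x - 1 := by
        rw [le_iff x]
        intro i hi
        have h4 := h1 i hi
        rw [Finsupp.sub_apply, h2 i hi, sub_zero] at h4
        exact h4
      omega

end Pool.Agent.H181.HP.TaskUlt
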